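import Pool.Agent.Helper11.SX.Df

/-!
# Orientation: taming forms and complex bases
-/

open Complex
open scoped ContDiff Manifold Topology

namespace Pool.Agent.Helper43.SX

open Pool.Agent.Helper11.SX

noncomputable section

/-- the real coordinates on `V` -/
def coordEquiv : V ≃ₗ[ℝ] (Fin 4 → ℝ) where
  toFun v := ![v.1.re, v.1.im, v.2.re, v.2.im]
  map_add' v w := by
    ext i; fin_cases i <;> simp
  map_smul' c v := by
    ext i; fin_cases i <;> simp
  invFun f := (⟨f 0, f 1⟩, ⟨f 2, f 3⟩)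
  left_inv v := by simp
  right_inv f := by
    ext i; fin_cases i <;> simp

/-- the standard basis, as a `Basis` -/
def basB : Module.Basis (Fin 4) ℝ V := Module.Basis.ofEquivFun coordEquiv

lemma basB_apply (i : Fin 4) : basB i = bas i := by
  unfold basB
  rw [Module.Basis.coe_ofEquivFun]
  fin_cases i <;> simp [coordEquiv, bas, Complex.ext_iff]

lemma basB_repr (v : V) (i : Fin 4) : basB.repr v i = ![v.1.re, v.1.im, v.2.re, v.2.im] i := by
  have h := basB.equivFun_apply v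
  rw [← h]
  rfl

/-- the matrix of a real linear map -/
def mat (A : V →L[ℝ] V) : Matrix (Fin 4) (Fin 4) ℝ :=
  Matrix.of fun i j => ![(A (bas j)).1.re, (A (bas j)).1.im, (A (bas j)).2.re, (A (bas j)).2.im] i

lemma det_eq_mat (A : V →L[ℝ] V) : A.det = (mat A).det := by
  have h : A.det = LinearMap.det (A : V →ₗ[ℝ] V) := rfl
  rw [h, ← LinearMap.det_toMatrix basB]
  congr 1
  ext i j
  rw [LinearMap.toMatrix_apply, basB_apply, basB_repr]
  rfl

lemma expand (v : V) : v = v.1.re • bas 0 + v.1.im • bas 1 + v.2.re • bas 2 + v.2.im • bas 3 := by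
  simp [bas]

lemma alt_swap {α : V →L[ℝ] V →L[ℝ] ℝ} (h : ∀ v, α v v = 0) (v w : V) : α w v = - α v w := by
  have := h (v + w)
  simp only [map_add, _root_.add_apply, h] at this
  linarith

lemma det4 (M : Matrix (Fin 4) (Fin 4) ℝ) : M.det =
    M 0 0 * (M 1 1 * (M 2 2 * M 3 3 - M 2 3 * M 3 2) - M 1 2 * (M 2 1 * M 3 3 - M 2 3 * M 3 1)
      + M 1 3 * (M 2 1 * M 3 2 - M 2 2 * M 3 1))
    - M 0 1 * (M 1 0 * (M 2 2 * M 3 3 - M 2 3 * M 3 2) - M 1 2 * (M 2 0 * M 3 3 - M 2 3 * M 3 0)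
      + M 1 3 * (M 2 0 * M 3 2 - M 2 2 * M 3 0))
    + M 0 2 * (M 1 0 * (M 2 1 * M 3 3 - M 2 3 * M 3 1) - M 1 1 * (M 2 0 * M 3 3 - M 2 3 * M 3 0)
      + M 1 3 * (M 2 0 * M 3 1 - M 2 1 * M 3 0))
    - M 0 3 * (M 1 0 * (M 2 1 * M 3 2 - M 2 2 * M 3 1) - M 1 1 * (M 2 0 * M 3 2 - M 2 2 * M 3 0)
      + M 1 2 * (M 2 0 * M 3 1 - M 2 1 * M 3 0)) := by
  rw [Matrix.det_succ_row_zero]
  simp [Fin.sum_univ_succ, Matrix.det_fin_three, Matrix.submatrix_apply, Fin.succAbove]
  ring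

lemma wed_comp {α β : V →L[ℝ] V →L[ℝ] ℝ} (hα : ∀ v, α v v = 0) (A : V →L[ℝ] V)
    (h : ∀ v w, β v w = α (A v) (A w)) : wed β β = A.det * wed α α := by
  rw [det_eq_mat]
  have h10 := alt_swap hα (bas 0) (bas 1)
  have h20 := alt_swap hα (bas 0) (bas 2)
  have h30 := alt_swap hα (bas 0) (bas 3)
  have h21 := alt_swap hα (bas 1) (bas 2)
  have h31 := alt_swap hα (bas 1) (bas 3)
  have h32 := alt_swap hα (bas 2) (bas 3)
  have key : ∀ i j, β (bas i) (bas j) = (mat A 0 i * mat A 1 j - mat A 1 i * mat A 0 j) * α (bas 0) (bas 1)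
      + (mat A 0 i * mat A 2 j - mat A 2 i * mat A 0 j) * α (bas 0) (bas 2)
      + (mat A 0 i * mat A 3 j - mat A 3 i * mat A 0 j) * α (bas 0) (bas 3)
      + (mat A 1 i * mat A 2 j - mat A 2 i * mat A 1 j) * α (bas 1) (bas 2)
      + (mat A 1 i * mat A 3 j - mat A 3 i * mat A 1 j) * α (bas 1) (bas 3)
      + (mat A 2 i * mat A 3 j - mat A 3 i * mat A 2 j) * α (bas 2) (bas 3) := by
    intro i j
    rw [h, expand (A (bas i)), expand (A (bas j))]
    simp only [map_add, map_smul, _root_.add_apply, _root_.smul_apply, hα,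
      h10, h20, h30, h21, h31, h32, smul_eq_mul, mat, Matrix.of_apply, Matrix.cons_val]
    ring
  unfold wed
  simp only [key]
  rw [det4]
  ring

lemma quad {α : V →L[ℝ] V →L[ℝ] ℝ} (hα : ∀ v, α v v = 0) (v : V) :
    α v (I * v.1, I * v.2) = α (bas 0) (bas 1) * (v.1.re ^ 2 + v.1.im ^ 2)
      + α (bas 2) (bas 3) * (v.2.re ^ 2 + v.2.im ^ 2)
      + (α (bas 0) (bas 2) + α (bas 1) (bas 3)) * (v.1.im * v.2.re - v.1.re * v.2.im)
      + (α (bas 0) (bas 3) - α (bas 1) (bas 2)) * (v.1.re * v.2.re + v.1.im * v.2.im) := by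
  have h10 := alt_swap hα (bas 0) (bas 1)
  have h20 := alt_swap hα (bas 0) (bas 2)
  have h30 := alt_swap hα (bas 0) (bas 3)
  have h21 := alt_swap hα (bas 1) (bas 2)
  have h31 := alt_swap hα (bas 1) (bas 3)
  have h32 := alt_swap hα (bas 2) (bas 3)
  have e1 : ((I * v.1, I * v.2) : V) = (-v.1.im) • bas 0 + v.1.re • bas 1 + (-v.2.im) • bas 2
      + v.2.re • bas 3 := by
    rw [expand (I * v.1, I * v.2)]
    simp
  rw [e1]
  nth_rewrite 1 [expand v]
  simp only [map_add, map_smul, _root_.add_apply, _root_.smul_apply, hα, h10, h20, h30, h21, h31,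
    h32, smul_eq_mul]
  ring

/-- a 2-form taming the standard complex structure has positive square -/
lemma wed_pos_std {α : V →L[ℝ] V →L[ℝ] ℝ} (hα : ∀ v, α v v = 0)
    (h : ∀ v : V, v ≠ 0 → 0 < α v (I * v.1, I * v.2)) : 0 < wed α α := by
  have h1 : 0 < α (bas 0) (bas 1) := by
    have := h (1, 0) (by simp)
    simpa [bas] using this
  set P := α (bas 0) (bas 2) + α (bas 1) (bas 3) with hP
  set R := α (bas 0) (bas 3) - α (bas 1) (bas 2) with hR
  set w := α (bas 0) (bas 1) with hw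
  have hne : ((⟨-R, -P⟩, ⟨2 * w, 0⟩) : V) ≠ 0 := by
    intro h0
    have := congrArg (fun v : V => v.2.re) h0
    simp only [Prod.snd_zero, zero_re] at this
    linarith
  have h2 := h _ hne
  rw [quad hα] at h2
  unfold wed
  rw [← hw]
  have h3 : 0 < w * (4 * w * α (bas 2) (bas 3) - P ^ 2 - R ^ 2) := by
    rw [← hP, ← hR, ← hw] at h2
    calc (0 : ℝ) < _ := h2
      _ = _ := by ring
  have h4 : 0 < 4 * w * α (bas 2) (bas 3) - P ^ 2 - R ^ 2 := by
    by_contra hcon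
    push Not at hcon
    nlinarith [mul_nonneg h1.le (sub_nonneg.2 hcon)]
  rw [hP, hR] at h4
  nlinarith [sq_nonneg (α (bas 0) (bas 2) - α (bas 1) (bas 3)),
    sq_nonneg (α (bas 0) (bas 3) + α (bas 1) (bas 2))]

/-- the real linear map `(s, t) ↦ s u + t v` for the complex structure `J` -/
def cmap (J : V →L[ℝ] V) (u v : V) : V →L[ℝ] V :=
  (reCLM.comp (ContinuousLinearMap.fst ℝ ℂ ℂ)).smulRight u
    + (imCLM.comp (ContinuousLinearMap.fst ℝ ℂ ℂ)).smulRight (J u)
    + (reCLM.comp (ContinuousLinearMap.snd ℝ ℂ ℂ)).smulRight v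
    + (imCLM.comp (ContinuousLinearMap.snd ℝ ℂ ℂ)).smulRight (J v)

lemma cmap_apply (J : V →L[ℝ] V) (u v w : V) :
    cmap J u v w = w.1.re • u + w.1.im • J u + w.2.re • v + w.2.im • J v := by
  simp [cmap]

lemma cmap_I {J : V →L[ℝ] V} (hJ : ∀ v, J (J v) = -v) (u v w : V) :
    cmap J u v (I * w.1, I * w.2) = J (cmap J u v w) := by
  rw [cmap_apply, cmap_apply]
  simp only [map_add, map_smul, hJ, mul_re, mul_im, I_re, I_im]
  simp
  abel

/-- the orientation of `J` is that of `α ∧ α`, if `α` tames `J` -/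
theorem orient {α : V →L[ℝ] V →L[ℝ] ℝ} (hα : ∀ v, α v v = 0) {J : V →L[ℝ] V}
    (hJ : ∀ v, J (J v) = -v) (h : ∀ v : V, v ≠ 0 → 0 < α v (J v)) {u v : V}
    (hd : (cmap J u v).det ≠ 0) : 0 < (cmap J u v).det * wed α α := by
  have hinj : ∀ w, w ≠ 0 → cmap J u v w ≠ 0 := by
    intro w hw h0
    apply hd
    have h1 : (cmap J u v).det = LinearMap.det (cmap J u v : V →ₗ[ℝ] V) := rfl
    rw [h1]
    by_contra hne
    have hk := (LinearMap.isUnit_iff_ker_eq_bot _).1
      ((LinearMap.isUnit_iff_isUnit_det _).2 (isUnit_iff_ne_zero.2 hne))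
    have hw' : w ∈ LinearMap.ker (cmap J u v : V →ₗ[ℝ] V) := by
      simpa using h0
    rw [hk] at hw'
    exact hw (by simpa using hw')
  set β : V →L[ℝ] V →L[ℝ] ℝ := α.bilinearComp (cmap J u v) (cmap J u v) with hβ
  have hβa : ∀ v' w', β v' w' = α (cmap J u v v') (cmap J u v w') := fun _ _ => rfl
  rw [← wed_comp hα (cmap J u v) hβa]
  apply wed_pos_std (fun v' => by rw [hβa, hα])
  intro w hw
  rw [hβa, cmap_I hJ]
  exact h _ (hinj w hw)

/-- `L` preserves the orientation of `α ∧ α` if it does so on a complex basis for `J` -/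
theorem orient_det {α : V →L[ℝ] V →L[ℝ] ℝ} (hα : ∀ v, α v v = 0) {J : V →L[ℝ] V}
    (hJ : ∀ v, J (J v) = -v) (h : ∀ v : V, v ≠ 0 → 0 < α v (J v)) {L : V →L[ℝ] V} {u v : V}
    (hd : 0 < (L.comp (cmap J u v)).det) : 0 < L.det * wed α α := by
  have h1 : (L.comp (cmap J u v)).det = L.det * (cmap J u v).det := by
    have : (L.comp (cmap J u v)).det
        = LinearMap.det ((L : V →ₗ[ℝ] V).comp (cmap J u v : V →ₗ[ℝ] V)) := rfl
    rw [this, LinearMap.det_comp]
  rw [h1] at hd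
  have hC : (cmap J u v).det ≠ 0 := by
    intro h0
    rw [h0, mul_zero] at hd
    exact lt_irrefl _ hd
  have h2 := orient hα hJ h hC
  have h3 : 0 < (L.det * (cmap J u v).det) * ((cmap J u v).det * wed α α) := mul_pos hd h2
  have h4 : (L.det * (cmap J u v).det) * ((cmap J u v).det * wed α α)
      = (L.det * wed α α) * ((cmap J u v).det) ^ 2 := by ring
  rw [h4] at h3
  exact (pos_iff_pos_of_mul_pos h3).2 (by positivity)

end

end Pool.Agent.Helper43.SX
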