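import Pool.Agent.Helper43.SX.Orient
import Pool.Agent.Helper52.SX.Forms

/-!
# Sections of powers of the canonical bundle: linear algebra, sums, extension by zero
-/

open Complex Set Filter
open scoped ContDiff Manifold Topology

namespace Pool.Agent.Helper43.SX

open Pool.Agent.Helper11.SX Pool.Agent.Helper52.SX

noncomputable section

/-! ### Complex linear algebra for a complex structure `J` on `V` -/

/-- `τ` is an alternating form, complex bilinear for `J` -/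
structure IsT (J : V →L[ℝ] V) (τ : V →L[ℝ] V →L[ℝ] ℂ) : Prop where
  alt : ∀ v, τ v v = 0
  lin : ∀ v w, τ (J v) w = I * τ v w

lemma IsT.swap {J : V →L[ℝ] V} {τ : V →L[ℝ] V →L[ℝ] ℂ} (h : IsT J τ) (v w : V) :
    τ w v = -τ v w := by
  have h1 := h.alt (v + w)
  simp only [map_add, _root_.add_apply, h.alt v, h.alt w, zero_add, add_zero] at h1
  exact eq_neg_of_add_eq_zero_left h1

lemma IsT.lin' {J : V →L[ℝ] V} {τ : V →L[ℝ] V →L[ℝ] ℂ} (h : IsT J τ) (v w : V) :
    τ v (J w) = I * τ v w := by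
  rw [h.swap (J w) v, h.lin, h.swap v w]
  ring

lemma IsT.self_J {J : V →L[ℝ] V} {τ : V →L[ℝ] V →L[ℝ] ℂ} (h : IsT J τ) (v : V) :
    τ v (J v) = 0 := by
  rw [h.lin', h.alt, mul_zero]

lemma IsT.J_self {J : V →L[ℝ] V} {τ : V →L[ℝ] V →L[ℝ] ℂ} (h : IsT J τ) (v : V) :
    τ (J v) v = 0 := by
  rw [h.lin, h.alt, mul_zero]

lemma IsT.on_cmap {J : V →L[ℝ] V} {τ : V →L[ℝ] V →L[ℝ] ℂ} (h : IsT J τ) (v w : V) (s t : V) :
    τ (cmap J v w s) (cmap J v w t) = (s.1 * t.2 - s.2 * t.1) * τ v w := by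
  obtain ⟨⟨s1, s2⟩, ⟨s3, s4⟩⟩ := s
  obtain ⟨⟨t1, t2⟩, ⟨t3, t4⟩⟩ := t
  rw [cmap_apply, cmap_apply]
  simp only [map_add, map_smul, _root_.add_apply, _root_.smul_apply, h.lin, h.lin', h.alt,
    h.swap v w, real_smul, mk_eq_add_mul_I]
  ring

lemma IsT.surj {J : V →L[ℝ] V} {τ : V →L[ℝ] V →L[ℝ] ℂ} (h : IsT J τ) {v w : V}
    (hne : τ v w ≠ 0) : Function.Surjective (cmap J v w) := by
  have hinj : Function.Injective (cmap J v w : V →ₗ[ℝ] V) := by
    rw [← LinearMap.ker_eq_bot, LinearMap.ker_eq_bot']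
    intro s hs
    have hs' : cmap J v w s = 0 := hs
    have h1 := h.on_cmap v w s (0, 1)
    have h2 := h.on_cmap v w s (1, 0)
    rw [hs', map_zero, _root_.zero_apply] at h1 h2
    have h3 : s.1 = 0 := by
      rcases mul_eq_zero.1 h1.symm with h4 | h4
      · simpa using h4
      · exact absurd h4 hne
    have h5 : s.2 = 0 := by
      rcases mul_eq_zero.1 h2.symm with h4 | h4
      · simpa using h4
      · exact absurd h4 hne
    exact Prod.ext h3 h5
  exact LinearMap.surjective_of_injective hinj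

lemma IsT.det_ne {J : V →L[ℝ] V} {τ : V →L[ℝ] V →L[ℝ] ℂ} (h : IsT J τ) {v w : V}
    (hne : τ v w ≠ 0) : (cmap J v w).det ≠ 0 := by
  have h1 : (cmap J v w).det
      = LinearMap.det (cmap J v w : V →ₗ[ℝ] V) := rfl
  rw [h1]
  have h2 : LinearMap.range (cmap J v w : V →ₗ[ℝ] V) = ⊤ :=
    LinearMap.range_eq_top.2 (h.surj hne)
  have h3 := (LinearMap.isUnit_iff_range_eq_top _).2 h2
  exact ((LinearMap.isUnit_iff_isUnit_det _).1 h3).ne_zero

/-- the (2,0)-forms are proportional -/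
lemma IsT.prop {J : V →L[ℝ] V} {τ τ' : V →L[ℝ] V →L[ℝ] ℂ} (h : IsT J τ) (h' : IsT J τ')
    (v w v₀ w₀ : V) : τ' v w * τ v₀ w₀ = τ v w * τ' v₀ w₀ := by
  by_cases h0 : τ v₀ w₀ = 0
  · by_cases h1 : τ v w = 0
    · rw [h0, h1, mul_zero, zero_mul]
    · obtain ⟨s, rfl⟩ := h.surj h1 v₀
      obtain ⟨t, rfl⟩ := h.surj h1 w₀
      rw [h.on_cmap, h'.on_cmap]
      ring
  · obtain ⟨s, rfl⟩ := h.surj h0 v
    obtain ⟨t, rfl⟩ := h.surj h0 w
    rw [h.on_cmap, h'.on_cmap]
    ring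

/-! ### Changes of charts -/

set_option linter.unusedSectionVars false

section

variable {X : Type} [TopologicalSpace X] [ChartedSpace V X]

lemma isOpen_ov (e e' : OpenPartialHomeomorph X V) : IsOpen (ov e e') :=
  e.isOpen_inter_preimage_symm e'.open_source

lemma mem_ov {e e' : OpenPartialHomeomorph X V} {x : X} (h : x ∈ e.source) (h' : x ∈ e'.source) :
    e x ∈ ov e e' := by
  refine ⟨e.map_source h, ?_⟩
  rw [mem_preimage, e.left_inv h]
  exact h'

lemma tr_apply {e e' : OpenPartialHomeomorph X V} {x : X} (h : x ∈ e.source) :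
    tr e e' (e x) = e' x := by
  unfold tr
  rw [e.left_inv h]

lemma tr_mem {e e' : OpenPartialHomeomorph X V} {u : V} (h : u ∈ ov e e') : tr e e' u ∈ ov e' e := by
  have h1 : e.symm u ∈ e.source := e.map_target h.1
  have h2 := mem_ov (e := e') (e' := e) h.2 h1
  exact h2

lemma tr_self {e : OpenPartialHomeomorph X V} {u : V} (h : u ∈ e.target) : tr e e u = u :=
  e.right_inv h

lemma tr_tr {e e' e'' : OpenPartialHomeomorph X V} {u : V} (h : u ∈ ov e e') :
    tr e' e'' (tr e e' u) = tr e e'' u := by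
  unfold tr
  rw [e'.left_inv h.2]

lemma tr_inv {e e' : OpenPartialHomeomorph X V} {u : V} (h : u ∈ ov e e') :
    tr e' e (tr e e' u) = u := by
  rw [tr_tr h, tr_self h.1]

lemma contDiffAt_tr [IsManifold (modelWithCornersSelf ℝ V) ∞ X] {e e' : OpenPartialHomeomorph X V}
    (he : e ∈ atlas V X) (he' : e' ∈ atlas V X) {u : V} (h : u ∈ ov e e') :
    ContDiffAt ℝ ∞ (tr e e') u := by
  have h1 : e.symm.trans e' ∈ contDiffGroupoid ∞ (modelWithCornersSelf ℝ V) :=
    HasGroupoid.compatible he he'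
  have h2 := (contMDiffOn_of_mem_contDiffGroupoid h1).contDiffOn
  have h3 : u ∈ (e.symm.trans e').source := by
    rw [OpenPartialHomeomorph.trans_source]
    exact h
  exact (h2.contDiffAt ((e.symm.trans e').open_source.mem_nhds h3) :)

variable {J : ACS X} {m : ℕ}

lemma _root_.Pool.Agent.Helper11.SX.IsTop.isT {e : OpenPartialHomeomorph X V} {u : V} {τ : V →L[ℝ] V →L[ℝ] ℂ}
    (h : IsTop J e u τ) : IsT (J.val e u) τ := ⟨h.alt, h.lin⟩

lemma _root_.Pool.Agent.Helper11.SX.IsTop.ne' {e : OpenPartialHomeomorph X V} {u : V} {τ : V →L[ℝ] V →L[ℝ] ℂ}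
    (h : IsTop J e u τ) : ∃ v w, τ v w ≠ 0 := by
  by_contra hcon
  push Not at hcon
  exact h.ne (ContinuousLinearMap.ext fun v => ContinuousLinearMap.ext fun w => hcon v w)

/-- in any local frame, a section is smooth -/
lemma _root_.Pool.Agent.Helper11.SX.KSec.frame (s : KSec J m) {e : OpenPartialHomeomorph X V} (he : e ∈ atlas V X) {u₀ : V}
    (hu₀ : u₀ ∈ e.target) {τ : V → V →L[ℝ] V →L[ℝ] ℂ} (hτ : ContDiffAt ℝ ∞ τ u₀)
    (hT : ∀ᶠ u in 𝓝 u₀, IsTop J e u (τ u)) :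
    ∃ g : V → ℂ, ContDiffAt ℝ ∞ g u₀ ∧ ∀ᶠ u in 𝓝 u₀, ∀ v w, s.val e u v w = g u * τ u v w ^ m := by
  obtain ⟨τ', g', hτ', hg', h'⟩ := s.loc e he u₀ hu₀
  obtain ⟨v₀, w₀, h0⟩ := hT.self_of_nhds.ne'
  have c1 : ContDiffAt ℝ ∞ (fun u => τ u v₀ w₀) u₀ :=
    (hτ.clm_apply contDiffAt_const).clm_apply contDiffAt_const
  have c2 : ContDiffAt ℝ ∞ (fun u => τ' u v₀ w₀) u₀ :=
    (hτ'.clm_apply contDiffAt_const).clm_apply contDiffAt_const
  refine ⟨fun u => g' u * (τ' u v₀ w₀ * (τ u v₀ w₀)⁻¹) ^ m,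
    hg'.mul ((c2.mul (c1.inv h0)).pow m), ?_⟩
  filter_upwards [hT, h', c1.continuousAt.eventually_ne h0] with u h1 h2 h3 v w
  rw [h2.2 v w]
  have h4 := h1.isT.prop h2.1.isT v w v₀ w₀
  have h5 : τ' u v w = τ' u v₀ w₀ * (τ u v₀ w₀)⁻¹ * τ u v w := by
    rw [mul_right_comm, mul_comm (τ' u v₀ w₀), ← h4, mul_inv_cancel_right₀ h3]
  rw [h5, mul_pow _ (τ u v w), mul_assoc]

/-- the sum of two sections -/
def _root_.Pool.Agent.Helper11.SX.KSec.add (s t : KSec J m) : KSec J m where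
  val e u v w := s.val e u v w + t.val e u v w
  loc e he u₀ hu₀ := by
    obtain ⟨τ, g, hτ, hg, h⟩ := s.loc e he u₀ hu₀
    obtain ⟨g', hg', h'⟩ := t.frame he hu₀ hτ (h.mono fun u hu => hu.1)
    refine ⟨τ, fun u => g u + g' u, hτ, hg.add hg', ?_⟩
    filter_upwards [h, h'] with u h1 h2
    exact ⟨h1.1, fun v w => by rw [h1.2, h2, add_mul]⟩
  compat e he e' he' u hu v w := by
    rw [s.compat e he e' he' u hu v w, t.compat e he e' he' u hu v w]

@[simp] lemma _root_.Pool.Agent.Helper11.SX.KSec.add_val (s t : KSec J m) (e : OpenPartialHomeomorph X V) (u v w : V) :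
    (s.add t).val e u v w = s.val e u v w + t.val e u v w := rfl

/-- the pull back of a (2,0)-form under a change of charts -/
lemma isTop_pull [IsManifold (modelWithCornersSelf ℝ V) ∞ X] {e e' : OpenPartialHomeomorph X V}
    (he : e ∈ atlas V X) (he' : e' ∈ atlas V X) {u : V} (h : u ∈ ov e e')
    {τ : V → V →L[ℝ] V →L[ℝ] ℂ} (hT : IsTop J e' (tr e e' u) (τ (tr e e' u))) :
    IsTop J e u (pull2 (tr e e') τ u) := by
  refine ⟨fun v => hT.alt _, fun v w => ?_, ?_⟩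
  · rw [pull2_apply, pull2_apply, ← J.compat e he e' he' u h, hT.lin]
  · obtain ⟨v, w, hvw⟩ := hT.ne'
    intro h0
    apply hvw
    have hd := contDiffAt_tr he he' h
    have hd' := contDiffAt_tr he' he (tr_mem h)
    have hc : (fderiv ℝ (tr e e') u).comp (fderiv ℝ (tr e' e) (tr e e' u))
        = ContinuousLinearMap.id ℝ V := by
      have h1 : fderiv ℝ (fun x => tr e e' (tr e' e x)) (tr e e' u)
          = (fderiv ℝ (tr e e') (tr e' e (tr e e' u))).comp (fderiv ℝ (tr e' e) (tr e e' u)) := by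
        have h0' : DifferentiableAt ℝ (tr e e') (tr e' e (tr e e' u)) := by
          rw [tr_inv h]
          exact hd.differentiableAt (by simp)
        exact fderiv_comp (𝕜 := ℝ) (tr e e' u) h0' (hd'.differentiableAt (by simp))
      rw [tr_inv h] at h1
      rw [← h1]
      have h2 : (fun x => tr e e' (tr e' e x)) =ᶠ[𝓝 (tr e e' u)] fun x => x := by
        filter_upwards [(isOpen_ov e' e).mem_nhds (tr_mem h)] with x hx
        exact tr_inv hx
      rw [h2.fderiv_eq, fderiv_fun_id]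
    have h3 : ∀ x, fderiv ℝ (tr e e') u (fderiv ℝ (tr e' e) (tr e e' u) x) = x := fun x =>
      congrArg (fun L : V →L[ℝ] V => L x) hc
    have h4 := congrArg (fun L : V →L[ℝ] V →L[ℝ] ℂ =>
      L (fderiv ℝ (tr e' e) (tr e e' u) v) (fderiv ℝ (tr e' e) (tr e e' u) w)) h0
    simp only [pull2_apply, h3] at h4
    exact h4

end

end

end Pool.Agent.Helper43.SX
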